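import Pool.Agent.R732.Net.Final

/-!
# Long-time convergence of the curvature flow of planar networks

Question Q1 of MP_9b4ab6_gt, answered affirmatively: every curvature flow with fixed end-points of
a regular network which exists for all times converges, as `t → ∞` along all times, to a network
which is stationary for the length.

Idea of the proof. For a convex, positively homogeneous `g` the functional `∑ ∫ g(γ_x) dx` can be
differentiated in time with two space derivatives only, and it decreases if `g` vanishes for slopes
at most `m` relative to a family of directions balanced at the 3-points. As the squared curvature is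
integrable in time, all tangents are close to such a family at some large times, hence at all later
times: all tangents converge. For every weight which is a circulation on the graph, the weighted
area is constant, and this determines the limit of the vertices.
-/

open Set Pool.Agent.R732.Net

namespace Pool.Agent.Results.MP_9b4ab6_gt.GlobalConvergence

/-- For every open convex set `Ω` of the plane, every regular `C²` network `σ` in `Ω` and every
curvature flow `γ` with fixed end-points of it which exists globally in time, the networks
`S_t = ⋃ i, γ i t '' [0,1]` converge as `t → ∞` to a network which is stationary for the length. -/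
theorem result : ∀ (ι : Type) [Fintype ι] (Ω : Set ℂ), IsOpen Ω → Convex ℝ Ω →
    ∀ σ : ι → ℝ → ℂ, IsNetwork Ω σ → Is120 Ω σ → (∀ i, ContDiffOn ℝ 2 (σ i) (Icc 0 1)) →
    ∀ γ : ι → ℝ → ℝ → ℂ, IsCurvatureFlow Ω σ γ →
      ∃ a b : ι → ℂ, ConvergesTo γ a b ∧ IsStationary Ω σ a b :=
  fun _ _ _ hΩ _ _ hσ _ _ _ h => h.converges hΩ hσ

end Pool.Agent.Results.MP_9b4ab6_gt.GlobalConvergence
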